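import Pool.Agent.U753.MG.Stm
import Pool.Agent.U337.MK.TE

/-!
# Project MG, package SU: operators on the sites of a box are translates of box operators
-/

set_option autoImplicit false
set_option linter.unusedSectionVars false

open scoped BigOperators Matrix ComplexOrder

noncomputable section

namespace Pool.Agent.U67.MG

open Pool.Agent.TH235.PP (BoxOp TorOp Site term ham sh normSq ip)
open Pool.Agent.U753.MK Pool.Agent.U753.MG

section gen

variable {V B : Type} [Fintype V] [DecidableEq V] [Fintype B] [DecidableEq B] {d : ℕ}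

/-- extension of a configuration of the box -/
def ex (hd : 0 < d) (f : B → V) (p : B → Fin d) : V → Fin d :=
  Function.extend f p (fun _ => ⟨0, hd⟩)

lemma ex_apply (hd : 0 < d) (f : B → V) (hf : Function.Injective f) (p : B → Fin d) (x : B) :
    ex hd f p (f x) = p x := hf.extend_apply _ _ _

lemma mix_ex (hd : 0 < d) (f : B → V) (hf : Function.Injective f) (s w : V → Fin d) :
    mix (Finset.univ.image f) (ex hd f (fun x => s (f x))) w = mix (Finset.univ.image f) s w := by
  funext v
  unfold mix
  by_cases hv : v ∈ Finset.univ.image f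
  · rw [if_pos hv, if_pos hv]
    obtain ⟨x, -, rfl⟩ := Finset.mem_image.1 hv
    exact ex_apply hd f hf _ x
  · rw [if_neg hv, if_neg hv]

/-- the box operator -/
def bx (hd : 0 < d) (f : B → V) (X : Matrix (V → Fin d) (V → Fin d) ℂ) :
    Matrix (B → Fin d) (B → Fin d) ℂ :=
  Matrix.of fun p q => ((d : ℂ) ^ Fintype.card V)⁻¹ * ∑ w : V → Fin d,
    X (mix (Finset.univ.image f) (ex hd f p) w) (mix (Finset.univ.image f) (ex hd f q) w)

lemma bx_herm (hd : 0 < d) (f : B → V) (X : Matrix (V → Fin d) (V → Fin d) ℂ)
    (hX : X.IsHermitian) : (bx hd f X).IsHermitian := by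
  ext p q
  rw [Matrix.conjTranspose_apply]
  unfold bx
  simp only [Matrix.of_apply, star_mul', star_sum, star_inv₀, star_pow, star_natCast]
  congr 1
  refine Finset.sum_congr rfl fun w _ => ?_
  exact hX.apply _ _

lemma emb_bx (hd : 0 < d) (f : B → V) (hf : Function.Injective f)
    (X : Matrix (V → Fin d) (V → Fin d) ℂ) (h : cexp (Finset.univ.image f) X = X) :
    X = Pool.Agent.U337.MK.emb f (bx hd f X) := by
  classical
  nth_rw 1 [← h]
  ext s t
  unfold cexp Pool.Agent.U337.MK.emb
  simp only [Matrix.of_apply]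
  have hiff : (∀ v, v ∉ Finset.univ.image f → s v = t v) ↔
      (∀ v, (∀ x, f x ≠ v) → s v = t v) := by
    constructor
    · intro hh v hv
      refine hh v fun hm => ?_
      obtain ⟨x, -, hx⟩ := Finset.mem_image.1 hm
      exact hv x hx
    · intro hh v hv
      exact hh v fun x hx => hv (Finset.mem_image.2 ⟨x, Finset.mem_univ x, hx⟩)
  by_cases hc : ∀ v, v ∉ Finset.univ.image f → s v = t v
  · rw [if_pos hc, if_pos (hiff.1 hc)]
    unfold bx
    simp only [Matrix.of_apply]
    congr 1
    refine Finset.sum_congr rfl fun w _ => ?_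
    rw [mix_ex hd f hf, mix_ex hd f hf]
  · rw [if_neg hc, if_neg (fun h' => hc (hiff.2 h'))]

end gen

/-- Package SU. -/
theorem t_sup : StmSup := by
  intro d R L _ hd hRL u X hX h
  have hinj : Function.Injective (sh u : Fin R × Fin R → Site L) :=
    Pool.Agent.TH235.PQ.sh_inj hRL u
  refine ⟨bx hd (sh u : Fin R × Fin R → Site L) X, bx_herm hd _ X hX, ?_⟩
  have hterm : term (bx hd (sh u : Fin R × Fin R → Site L) X) u =
      Pool.Agent.U337.MK.emb (sh u : Fin R × Fin R → Site L)
        (bx hd (sh u : Fin R × Fin R → Site L) X) := by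
    ext s t
    unfold term Pool.Agent.U337.MK.emb
    split_ifs <;> rfl
  rw [hterm]
  apply emb_bx hd (sh u : Fin R × Fin R → Site L) hinj X
  convert h using 2

end Pool.Agent.U67.MG
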